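import Mathlib

open scoped BigOperators Pointwise

namespace Pool.Agent.Results.MP_d88d3c_co.TwoFewer

/-- An integer vector seen as a real vector. -/
def toR {ι : Type} (u : ι → ℤ) : ι → ℝ := fun i => (u i : ℝ)

/-- The order polytope of a poset `Q`. -/
def orderPolytope (Q : Type) [PartialOrder Q] : Set (Q → ℝ) :=
  {x | (∀ p, 0 ≤ x p ∧ x p ≤ 1) ∧ ∀ p q, p ≤ q → x p ≤ x q}

/-- The unit cube. -/
def cube (Q : Type) : Set (Q → ℝ) := {x | ∀ p, 0 ≤ x p ∧ x p ≤ 1}

/-- Number of lattice points of the dilate `n P`. -/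
noncomputable def ehr {ι : Type} (P : Set (ι → ℝ)) (n : ℕ) : ℕ :=
  {u : ι → ℤ | toR u ∈ (n : ℝ) • P}.ncard

/-- The Ehrhart series `1 + ∑_{n ≥ 1} #(nP ∩ ℤ^m) z^n`. -/
noncomputable def ehrSeries {ι : Type} (P : Set (ι → ℝ)) : PowerSeries ℤ :=
  PowerSeries.mk fun n => if n = 0 then 1 else (ehr P n : ℤ)

/-- The dimension of `P`, that is, of its affine span. -/
noncomputable def pdim {ι : Type} (P : Set (ι → ℝ)) : ℕ := Module.finrank ℝ (vectorSpan ℝ P)

/-- `h^*_P(z) = (1 - z)^{dim P + 1} Ehr_P(z)`. -/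
noncomputable def hstar {ι : Type} (P : Set (ι → ℝ)) : PowerSeries ℤ :=
  (1 - PowerSeries.X) ^ (pdim P + 1) * ehrSeries P

/-! ### Counting monotone maps -/

/-- Monotone integer maps with values in `[0,k]`. -/
def A (Q : Type) [PartialOrder Q] (k : ℤ) : Set (Q → ℤ) :=
  {f | (∀ p, 0 ≤ f p ∧ f p ≤ k) ∧ ∀ p q, p ≤ q → f p ≤ f q}

/-- Number of monotone maps with values in `[0,k]`. -/
noncomputable def Om (Q : Type) [PartialOrder Q] (k : ℤ) : ℕ := (A Q k).ncard

/-- Monotone maps with minimum `0` and maximum `k`. -/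
def B (Q : Type) [PartialOrder Q] (k : ℤ) : Set (Q → ℤ) :=
  {f | f ∈ A Q k ∧ (∃ p, f p = 0) ∧ ∃ p, f p = k}

theorem A_finite (Q : Type) [Fintype Q] [PartialOrder Q] (k : ℤ) : (A Q k).Finite := by
  classical
  apply Set.Finite.subset (Set.finite_Icc (0 : Q → ℤ) (fun _ => k))
  intro f hf
  exact ⟨fun p => (hf.1 p).1, fun p => (hf.1 p).2⟩

theorem Om_neg (Q : Type) [Nonempty Q] [PartialOrder Q] (k : ℤ) (hk : k < 0) : Om Q k = 0 := by
  unfold Om
  convert Set.ncard_empty (Q → ℤ)
  ext f
  constructor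
  · intro hf
    obtain ⟨p⟩ := ‹Nonempty Q›
    have := hf.1 p
    exfalso; omega
  · intro h; exact h.elim

theorem Om_zero (Q : Type) [PartialOrder Q] : Om Q 0 = 1 := by
  unfold Om
  have : A Q 0 = {0} := by
    ext f
    constructor
    · intro hf
      have : f = 0 := by
        funext p
        have := hf.1 p
        simp only [Pi.zero_apply]
        omega
      exact this
    · rintro rfl
      exact ⟨fun p => ⟨le_refl _, le_refl _⟩, fun _ _ _ => le_refl _⟩
  rw [this, Set.ncard_singleton]

theorem B_count (Q : Type) [Fintype Q] [Nonempty Q] [PartialOrder Q] (k : ℤ) :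
    ((B Q k).ncard : ℤ) = (Om Q k : ℤ) - 2 * Om Q (k - 1) + Om Q (k - 2) := by
  set A1 : Set (Q → ℤ) := {f | f ∈ A Q k ∧ ∀ p, f p ≤ k - 1} with hA1
  set A2 : Set (Q → ℤ) := {f | f ∈ A Q k ∧ ∀ p, 1 ≤ f p} with hA2
  have hfin := A_finite Q k
  have h1 : A1 = A Q (k - 1) := by
    ext f
    constructor
    · rintro ⟨hf, h⟩
      exact ⟨fun p => ⟨(hf.1 p).1, h p⟩, hf.2⟩
    · intro hf
      exact ⟨⟨fun p => ⟨(hf.1 p).1, by have := (hf.1 p).2; omega⟩, hf.2⟩, fun p => (hf.1 p).2⟩
  have h2 : A2 = (fun f => f + 1) '' A Q (k - 1) := by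
    ext f
    constructor
    · rintro ⟨hf, h⟩
      refine ⟨f - 1, ⟨fun p => ?_, fun p q hpq => ?_⟩, by simp⟩
      · have := hf.1 p; have := h p
        simp only [Pi.sub_apply, Pi.one_apply]; omega
      · have := hf.2 p q hpq
        simp only [Pi.sub_apply, Pi.one_apply]; omega
    · rintro ⟨g, hg, rfl⟩
      refine ⟨⟨fun p => ?_, fun p q hpq => ?_⟩, fun p => ?_⟩
      · have := hg.1 p
        simp only [Pi.add_apply, Pi.one_apply]; omega
      · have := hg.2 p q hpq
        simp only [Pi.add_apply, Pi.one_apply]; omega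
      · have := hg.1 p
        simp only [Pi.add_apply, Pi.one_apply]; omega
  have h12 : A1 ∩ A2 = (fun f => f + 1) '' A Q (k - 2) := by
    ext f
    constructor
    · rintro ⟨⟨hf, h⟩, -, h'⟩
      refine ⟨f - 1, ⟨fun p => ?_, fun p q hpq => ?_⟩, by simp⟩
      · have := h p; have := h' p
        simp only [Pi.sub_apply, Pi.one_apply]; omega
      · have := hf.2 p q hpq
        simp only [Pi.sub_apply, Pi.one_apply]; omega
    · rintro ⟨g, hg, rfl⟩
      have e : g + 1 ∈ A Q k := by
        refine ⟨fun p => ?_, fun p q hpq => ?_⟩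
        · have := hg.1 p
          simp only [Pi.add_apply, Pi.one_apply]; omega
        · have := hg.2 p q hpq
          simp only [Pi.add_apply, Pi.one_apply]; omega
      refine ⟨⟨e, fun p => ?_⟩, ⟨e, fun p => ?_⟩⟩
      · have := hg.1 p
        simp only [Pi.add_apply, Pi.one_apply]; omega
      · have := hg.1 p
        simp only [Pi.add_apply, Pi.one_apply]; omega
  have hinj : Function.Injective (fun f : Q → ℤ => f + 1) := add_left_injective 1
  have c1 : A1.ncard = Om Q (k - 1) := by rw [h1]; rfl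
  have c2 : A2.ncard = Om Q (k - 1) := by rw [h2, Set.ncard_image_of_injective _ hinj]; rfl
  have c12 : (A1 ∩ A2).ncard = Om Q (k - 2) := by
    rw [h12, Set.ncard_image_of_injective _ hinj]; rfl
  have hf1 : A1.Finite := hfin.subset (fun f hf => hf.1)
  have hf2 : A2.Finite := hfin.subset (fun f hf => hf.1)
  have hu := Set.ncard_union_add_ncard_inter A1 A2 hf1 hf2
  have hB : B Q k = A Q k \ (A1 ∪ A2) := by
    ext f
    constructor
    · rintro ⟨hf, ⟨p, hp⟩, ⟨q, hq⟩⟩
      refine ⟨hf, ?_⟩
      rintro (⟨-, h⟩ | ⟨-, h⟩)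
      · have := h q; omega
      · have := h p; omega
    · rintro ⟨hf, h⟩
      refine ⟨hf, ?_, ?_⟩
      · by_contra hc
        push Not at hc
        apply h
        right
        refine ⟨hf, fun p => ?_⟩
        have := hc p; have := hf.1 p; omega
      · by_contra hc
        push Not at hc
        apply h
        left
        refine ⟨hf, fun p => ?_⟩
        have := hc p; have := hf.1 p; omega
  have hsub : A1 ∪ A2 ⊆ A Q k := by
    rintro f (⟨hf, -⟩ | ⟨hf, -⟩) <;> exact hf
  have hd := Set.ncard_sdiff_add_ncard_of_subset hsub hfin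
  rw [← hB] at hd
  have hO : (A Q k).ncard = Om Q k := rfl
  rw [c1, c2, c12] at hu
  rw [hO] at hd
  omega

theorem mem_smul_iff {ι : Type} (P : Set (ι → ℝ)) (n : ℕ) (hn : n ≠ 0) (x : ι → ℝ) :
    x ∈ (n : ℝ) • P ↔ (n : ℝ)⁻¹ • x ∈ P := by
  have : (n : ℝ) ≠ 0 := by exact_mod_cast hn
  exact Set.mem_smul_set_iff_inv_smul_mem₀ this P x

theorem order_dilate (Q : Type) [PartialOrder Q] (n : ℕ) (hn : n ≠ 0) (x : Q → ℝ) :
    x ∈ (n : ℝ) • orderPolytope Q ↔
      (∀ p, 0 ≤ x p ∧ x p ≤ n) ∧ ∀ p q, p ≤ q → x p ≤ x q := by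
  have hpos : (0 : ℝ) < n := by exact_mod_cast Nat.pos_of_ne_zero hn
  rw [mem_smul_iff _ n hn]
  simp only [orderPolytope, Set.mem_ofPred_eq, Pi.smul_apply, smul_eq_mul]
  have e1 : ∀ a : ℝ, 0 ≤ (n : ℝ)⁻¹ * a ↔ 0 ≤ a := by
    intro a
    constructor
    · intro h
      have := mul_nonneg hpos.le h
      rwa [mul_inv_cancel_left₀ hpos.ne'] at this
    · intro h; positivity
  have e2 : ∀ a : ℝ, (n : ℝ)⁻¹ * a ≤ 1 ↔ a ≤ n := by
    intro a
    rw [inv_mul_le_iff₀ hpos, mul_one]
  have e3 : ∀ a b : ℝ, (n : ℝ)⁻¹ * a ≤ (n : ℝ)⁻¹ * b ↔ a ≤ b := by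
    intro a b
    exact mul_le_mul_iff_right₀ (inv_pos.mpr hpos)
  simp only [e1, e2, e3]

theorem ehr_order (Q : Type) [PartialOrder Q] (n : ℕ) (hn : n ≠ 0) :
    ehr (orderPolytope Q) n = Om Q n := by
  unfold ehr Om
  congr 1
  ext u
  rw [Set.mem_ofPred_eq, order_dilate Q n hn]
  simp only [A, toR, Set.mem_ofPred_eq]
  constructor
  · rintro ⟨h1, h2⟩
    refine ⟨fun p => ?_, fun p q hpq => ?_⟩
    · exact_mod_cast h1 p
    · exact_mod_cast h2 p q hpq
  · rintro ⟨h1, h2⟩
    refine ⟨fun p => ?_, fun p q hpq => ?_⟩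
    · exact_mod_cast h1 p
    · exact_mod_cast h2 p q hpq

/-! ### The order polytope is the hull of the indicators of its upper sets -/

/-- Indicator vectors of upper sets. -/
def IndSet (Q : Type) [PartialOrder Q] : Set (Q → ℤ) :=
  {f | (∀ p, f p = 0 ∨ f p = 1) ∧ ∀ p q, p ≤ q → f p ≤ f q}

theorem IndSet_sub (Q : Type) [PartialOrder Q] : IndSet Q ⊆ A Q 1 := by
  rintro f ⟨h1, h2⟩
  refine ⟨fun p => ?_, h2⟩
  rcases h1 p with h | h <;> rw [h] <;> omega

theorem layer {Q : Type} [Fintype Q] [PartialOrder Q] (K : Set (Q → ℝ)) (hK : Convex ℝ K)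
    (hI : ∀ f ∈ IndSet Q, toR f ∈ K) : ∀ (n : ℕ) (x : Q → ℝ) (l : ℝ),
    (∀ p, 0 ≤ x p ∧ x p ≤ l) → 0 ≤ l → (∀ p q, p ≤ q → x p ≤ x q) →
    {p | x p ≠ 0}.ncard = n → x ∈ l • K := by
  intro n
  induction n using Nat.strong_induction_on with
  | _ n ih =>
    intro x l hx hl hmono hcard
    have hfin : {p | x p ≠ 0}.Finite := Set.toFinite _
    by_cases hne : {p | x p ≠ 0}.Nonempty
    · obtain ⟨a, ha, hmin⟩ := Set.exists_min_image _ x hfin hne
      have ha0 : x a ≠ 0 := ha
      have hapos : 0 < x a := lt_of_le_of_ne (hx a).1 (Ne.symm ha0)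
      classical
      set f : Q → ℤ := fun p => if x p = 0 then 0 else 1 with hf
      have hfI : f ∈ IndSet Q := by
        constructor
        · intro p
          by_cases h : x p = 0
          · left; simp [hf, h]
          · right; simp [hf, h]
        · intro p q hpq
          by_cases h : x p = 0
          · simp only [hf, h, if_true]
            split_ifs <;> norm_num
          · have h2 : x q ≠ 0 := by
              intro h3
              have h4 := hmono p q hpq
              rw [h3] at h4
              exact h (le_antisymm h4 (hx p).1)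
            simp [hf, h, h2]
      set y : Q → ℝ := x - (x a) • toR f with hy
      have hyv : ∀ p, y p = if x p = 0 then 0 else x p - x a := by
        intro p
        simp only [hy, Pi.sub_apply, Pi.smul_apply, smul_eq_mul, toR, hf]
        split_ifs with h
        · simp [h]
        · simp
      have hle : x a ≤ l := (hx a).2
      have hyl : y ∈ (l - x a) • K := by
        apply ih ({p | y p ≠ 0}.ncard) _ y (l - x a) _ (by linarith) _ rfl
        · rw [← hcard]
          apply Set.ncard_lt_ncard _ hfin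
          constructor
          · intro p hp
            simp only [Set.mem_ofPred_eq] at hp ⊢
            intro h
            apply hp
            rw [hyv, if_pos h]
          · intro hsub
            have := hsub ha
            apply this
            rw [hyv, if_neg ha0, sub_self]
        · intro p
          rw [hyv]
          split_ifs with h
          · exact ⟨le_refl _, by linarith⟩
          · have := hmin p h
            exact ⟨by linarith, by linarith [(hx p).2]⟩
        · intro p q hpq
          rw [hyv, hyv]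
          by_cases h : x p = 0
          · rw [if_pos h]
            split_ifs with h2
            · exact le_refl _
            · have := hmin q h2
              linarith
          · have h2 : x q ≠ 0 := by
              intro h3
              have h4 := hmono p q hpq
              rw [h3] at h4
              exact h (le_antisymm h4 (hx p).1)
            rw [if_neg h, if_neg h2]
            linarith [hmono p q hpq]
      have hxs : x = (x a) • toR f + y := by rw [hy]; abel
      have hadd := hK.add_smul hapos.le (sub_nonneg.mpr hle)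
      rw [add_sub_cancel] at hadd
      have h3 : (x a) • toR f + y ∈ (x a) • K + (l - x a) • K :=
        Set.add_mem_add (Set.smul_mem_smul_set (hI f hfI)) hyl
      rw [← hxs] at h3
      rw [hadd]
      exact h3
    · have hx0 : x = 0 := by
        funext p
        by_contra h
        exact hne ⟨p, h⟩
      rw [hx0]
      refine ⟨toR 0, hI 0 ⟨fun p => Or.inl rfl, fun _ _ _ => le_refl _⟩, ?_⟩
      ext p
      simp [toR]

theorem order_eq_hull (Q : Type) [Fintype Q] [PartialOrder Q] :
    orderPolytope Q = convexHull ℝ (toR '' IndSet Q) := by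
  apply Set.Subset.antisymm
  · intro x hx
    have := layer (convexHull ℝ (toR '' IndSet Q)) (convex_convexHull ℝ _)
      (fun f hf => subset_convexHull ℝ _ ⟨f, hf, rfl⟩) _ x 1 hx.1 (by norm_num) hx.2 rfl
    rwa [one_smul] at this
  · apply convexHull_min
    · rintro _ ⟨f, hf, rfl⟩
      refine ⟨fun p => ?_, fun p q hpq => ?_⟩
      · rcases hf.1 p with h | h <;> simp [toR, h]
      · have := hf.2 p q hpq
        simp only [toR]
        exact_mod_cast this
    · intro x hx y hy a b ha hb hab
      refine ⟨fun p => ?_, fun p q hpq => ?_⟩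
      · have h1 := hx.1 p
        have h2 := hy.1 p
        simp only [Pi.add_apply, Pi.smul_apply, smul_eq_mul]
        constructor
        · have := mul_nonneg ha h1.1
          have := mul_nonneg hb h2.1
          linarith
        · have := mul_le_mul_of_nonneg_left h1.2 ha
          have := mul_le_mul_of_nonneg_left h2.2 hb
          linarith
      · have h1 := hx.2 p q hpq
        have h2 := hy.2 p q hpq
        simp only [Pi.add_apply, Pi.smul_apply, smul_eq_mul]
        have := mul_le_mul_of_nonneg_left h1 ha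
        have := mul_le_mul_of_nonneg_left h2 hb
        linarith

/-- The property to be proved for each poset which is not an antichain. -/
def Good (Q : Type) [Fintype Q] [PartialOrder Q] : Prop :=
  ∃ (ι : Type) (_ : Fintype ι) (V : Set (ι → ℤ)), V.Finite ∧ 0 ∈ V ∧
    pdim (convexHull ℝ (toR '' V)) + 2 = Fintype.card Q ∧
    ∀ n : ℕ, (ehr (convexHull ℝ (toR '' V)) n : ℤ) =
      (Om Q n : ℤ) - 2 * Om Q ((n : ℤ) - 1) + Om Q ((n : ℤ) - 2)

theorem ehr_zero {ι : Type} (P : Set (ι → ℝ)) (h : P.Nonempty) : ehr P 0 = 1 := by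
  unfold ehr
  have : {u : ι → ℤ | toR u ∈ ((0 : ℕ) : ℝ) • P} = {0} := by
    ext u
    rw [Nat.cast_zero, Set.zero_smul_set h]
    simp only [Set.mem_ofPred_eq, Set.mem_zero, Set.mem_singleton_iff]
    constructor
    · intro h
      funext i
      have := congrFun h i
      simpa [toR] using this
    · rintro rfl
      funext i
      simp [toR]
  rw [this, Set.ncard_singleton]

/-! ### Posets without isolated points -/

section Proj

variable {Q : Type} [Fintype Q] [PartialOrder Q]

open Classical in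
/-- Indicator of the maximal elements. -/
noncomputable def vz (p : Q) : ℤ := if IsMax p then 1 else 0

/-- The integer projection. -/
noncomputable def TZ (a b : Q) (f : Q → ℤ) : Q → ℤ := fun c => f c - f a - vz c * (f b - f a)

/-- The real projection. -/
noncomputable def TR (a b : Q) : (Q → ℝ) →ₗ[ℝ] (Q → ℝ) where
  toFun x := fun c => x c - x a - (vz c : ℝ) * (x b - x a)
  map_add' x y := by
    funext c
    simp only [Pi.add_apply]
    ring
  map_smul' r x := by
    funext c
    simp only [Pi.smul_apply, smul_eq_mul, RingHom.id_apply]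
    ring

omit [Fintype Q] in
theorem TR_apply (a b : Q) (x : Q → ℝ) (c : Q) :
    TR a b x c = x c - x a - (vz c : ℝ) * (x b - x a) := rfl

omit [Fintype Q] in
theorem TR_toR (a b : Q) (f : Q → ℤ) : TR a b (toR f) = toR (TZ a b f) := by
  funext c
  rw [TR_apply]
  simp only [toR, TZ]
  push_cast
  ring

theorem hull_image (a b : Q) :
    convexHull ℝ (toR '' (TZ a b '' IndSet Q)) = TR a b '' orderPolytope Q := by
  rw [order_eq_hull, LinearMap.image_convexHull]
  congr 1
  rw [Set.image_image, Set.image_image]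
  apply Set.image_congr
  intro f _
  rw [TR_toR]

theorem exists_min_le (p : Q) : ∃ a ≤ p, IsMin a := by
  obtain ⟨a, ha, h⟩ := (Set.toFinite (Set.univ : Set Q)).exists_le_minimal (Set.mem_univ p)
  exact ⟨a, ha, fun c hc => h.2 (Set.mem_univ c) hc⟩

theorem exists_max_ge (p : Q) : ∃ a, p ≤ a ∧ IsMax a := by
  obtain ⟨a, ha, h⟩ := (Set.toFinite (Set.univ : Set Q)).exists_le_maximal (Set.mem_univ p)
  exact ⟨a, ha, fun c hc => h.2 (Set.mem_univ c) hc⟩


omit [Fintype Q] in
theorem vz_max {p : Q} (h : IsMax p) : vz p = 1 := by unfold vz; rw [if_pos h]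

omit [Fintype Q] in
theorem vz_nmax {p : Q} (h : ¬ IsMax p) : vz p = 0 := by unfold vz; rw [if_neg h]

/-- Lattice points of the dilated projection. -/
theorem lattice_proj (hiso : ∀ p : Q, ¬ (IsMin p ∧ IsMax p)) (a b : Q) (ha : IsMin a)
    (hb : IsMax b) (n : ℕ) (hn : n ≠ 0) :
    {u : Q → ℤ | toR u ∈ (n : ℝ) • (TR a b '' orderPolytope Q)} = TZ a b '' B Q n := by
  have hva : vz a = 0 := vz_nmax (fun h => hiso a ⟨ha, h⟩)
  have hvb : vz b = 1 := vz_max hb
  have himg : (n : ℝ) • (TR a b '' orderPolytope Q) = TR a b '' ((n : ℝ) • orderPolytope Q) := by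
    rw [← Set.image_smul, ← Set.image_smul, Set.image_image, Set.image_image]
    apply Set.image_congr
    intro x _
    rw [map_smul]
  rw [himg]
  ext u
  constructor
  · rintro ⟨x, hx, hxu⟩
    rw [order_dilate Q n hn] at hx
    obtain ⟨hx1, hx2⟩ := hx
    have hu : ∀ c, (u c : ℝ) = x c - x a - (vz c : ℝ) * (x b - x a) := by
      intro c
      rw [← TR_apply, hxu]; rfl
    -- extreme values of u
    obtain ⟨b1, hb1, hM⟩ := Set.exists_max_image {p : Q | IsMax p} u (Set.toFinite _) ⟨b, hb⟩
    obtain ⟨a1, ha1, hm⟩ := Set.exists_min_image {p : Q | IsMin p} u (Set.toFinite _) ⟨a, ha⟩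
    have hb1' : IsMax b1 := hb1
    have ha1' : IsMin a1 := ha1
    have hva1 : vz a1 = 0 := vz_nmax (fun h => hiso a1 ⟨ha1', h⟩)
    set t : ℤ := n - u b1 + u a1 with ht
    have htx : x b - x a ≤ (t : ℝ) := by
      have h1 := hu b1
      have h2 := hu a1
      rw [vz_max hb1'] at h1
      rw [hva1] at h2
      push_cast at h1 h2
      have h3 := (hx1 b1).2
      have h4 := (hx1 a1).1
      rw [ht]
      push_cast
      linarith
    set f : Q → ℤ := fun c => u c - u a1 + vz c * t with hf
    have hmono : ∀ c d, c ≤ d → f c ≤ f d := by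
      intro c d hcd
      have h1 := hu c
      have h2 := hu d
      have h3 := hx2 c d hcd
      by_cases hc : IsMax c
      · have : c = d := le_antisymm hcd (hc hcd)
        rw [this]
      · by_cases hd : IsMax d
        · rw [vz_nmax hc] at h1
          rw [vz_max hd] at h2
          simp only [hf, vz_nmax hc, vz_max hd]
          push_cast at h1 h2
          have : (u c : ℝ) ≤ u d + t := by linarith
          have h5 : u c ≤ u d + t := by exact_mod_cast this
          linarith
        · rw [vz_nmax hc] at h1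
          rw [vz_nmax hd] at h2
          simp only [hf, vz_nmax hc, vz_nmax hd]
          push_cast at h1 h2
          have : (u c : ℝ) ≤ u d := by linarith
          have h5 : u c ≤ u d := by exact_mod_cast this
          linarith
    have hua : u a = 0 := by
      have := hu a
      rw [hva] at this
      push_cast at this
      have h2 : (u a : ℝ) = 0 := by linarith
      exact_mod_cast h2
    have hub : u b = 0 := by
      have := hu b
      rw [hvb] at this
      push_cast at this
      have h2 : (u b : ℝ) = 0 := by linarith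
      exact_mod_cast h2
    refine ⟨f, ⟨⟨fun c => ⟨?_, ?_⟩, hmono⟩, ⟨a1, ?_⟩, ⟨b1, ?_⟩⟩, ?_⟩
    · obtain ⟨a2, ha2, hmin⟩ := exists_min_le c
      have h1 := hmono a2 c ha2
      have h2 := hm a2 hmin
      have h3 : vz a2 = 0 := vz_nmax (fun h => hiso a2 ⟨hmin, h⟩)
      have h4 : f a2 = u a2 - u a1 := by simp [hf, h3]
      linarith
    · obtain ⟨b2, hb2, hmax⟩ := exists_max_ge c
      have h1 := hmono c b2 hb2
      have h2 := hM b2 hmax
      have h4 : f b2 = u b2 - u a1 + t := by simp [hf, vz_max hmax]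
      rw [ht] at h4
      linarith
    · simp [hf, hva1]
    · simp only [hf, vz_max hb1', ht]; ring
    · funext c
      simp only [TZ, hf, hva, hvb, hua, hub]
      ring
  · rintro ⟨f, hf, rfl⟩
    refine ⟨toR f, ?_, TR_toR a b f⟩
    rw [order_dilate Q n hn]
    refine ⟨fun p => ?_, fun p q hpq => ?_⟩
    · have := hf.1.1 p
      simp only [toR]
      exact_mod_cast this
    · have := hf.1.2 p q hpq
      simp only [toR]
      exact_mod_cast this

theorem TZ_inj (hiso : ∀ p : Q, ¬ (IsMin p ∧ IsMax p)) (a b : Q) (n : ℕ) :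
    Set.InjOn (TZ a b) (B Q n) := by
  intro f hf g hg hfg
  have h : ∀ c, f c - f a - vz c * (f b - f a) = g c - g a - vz c * (g b - g a) :=
    fun c => congrFun hfg c
  -- equality of the shifts on minimal elements
  have key : ∀ (f g : Q → ℤ), f ∈ B Q n → g ∈ B Q n →
      (∀ c, f c - f a - vz c * (f b - f a) = g c - g a - vz c * (g b - g a)) → f a ≤ g a := by
    intro f g hf hg h
    obtain ⟨p, hp⟩ := hf.2.1
    obtain ⟨a2, ha2, hmin⟩ := exists_min_le p
    have h1 := hf.1.2 a2 p ha2
    have h2 := (hf.1.1 a2).1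
    have h3 : f a2 = 0 := by omega
    have h4 := h a2
    rw [vz_nmax (fun h => hiso a2 ⟨hmin, h⟩)] at h4
    have h5 := (hg.1.1 a2).1
    simp only [zero_mul, sub_zero] at h4
    omega
  have hs : f a = g a := le_antisymm (key f g hf hg h) (key g f hg hf (fun c => (h c).symm))
  have key2 : ∀ (f g : Q → ℤ), f ∈ B Q n → g ∈ B Q n → f a = g a →
      (∀ c, f c - f a - vz c * (f b - f a) = g c - g a - vz c * (g b - g a)) → g b ≤ f b := by
    intro f g hf hg hs h
    obtain ⟨p, hp⟩ := hf.2.2
    obtain ⟨b2, hb2, hmax⟩ := exists_max_ge p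
    have h1 := hf.1.2 p b2 hb2
    have h2 := (hf.1.1 b2).2
    have h3 : f b2 = n := by omega
    have h4 := h b2
    rw [vz_max hmax] at h4
    have h5 := (hg.1.1 b2).2
    simp only [one_mul] at h4
    omega
  have ht : f b = g b := le_antisymm (key2 g f hg hf hs.symm (fun c => (h c).symm))
    (key2 f g hf hg hs h)
  funext c
  have := h c
  rw [hs, ht] at this
  linarith

/-- Dimension of the projected order polytope. -/
theorem span_order : vectorSpan ℝ (orderPolytope Q) = ⊤ := by
  classical
  rw [eq_top_iff]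
  have hbasis : ∀ c : Q, Pi.single c (1 : ℝ) ∈ vectorSpan ℝ (orderPolytope Q) := by
    intro c
    set f : Q → ℝ := fun p => if c ≤ p then 1 else 0 with hf
    set g : Q → ℝ := fun p => if c < p then 1 else 0 with hg
    have hfO : f ∈ orderPolytope Q := by
      refine ⟨fun p => ?_, fun p q hpq => ?_⟩
      · simp only [hf]; split_ifs <;> norm_num
      · simp only [hf]
        split_ifs with h1 h2 h2
        · exact le_refl _
        · exact absurd (h1.trans hpq) h2
        · norm_num
        · exact le_refl _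
    have hgO : g ∈ orderPolytope Q := by
      refine ⟨fun p => ?_, fun p q hpq => ?_⟩
      · simp only [hg]; split_ifs <;> norm_num
      · simp only [hg]
        split_ifs with h1 h2 h2
        · exact le_refl _
        · exact absurd (h1.trans_le hpq) h2
        · norm_num
        · exact le_refl _
    have h := vsub_mem_vectorSpan ℝ hfO hgO
    have e : f -ᵥ g = Pi.single c (1 : ℝ) := by
      funext p
      simp only [vsub_eq_sub, Pi.sub_apply, hf, hg]
      by_cases hp : p = c
      · subst hp
        simp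
      · rw [Pi.single_eq_of_ne hp]
        by_cases h1 : c ≤ p
        · rw [if_pos h1, if_pos (lt_of_le_of_ne h1 (Ne.symm hp))]
          norm_num
        · rw [if_neg h1, if_neg (fun h => h1 h.le)]
          norm_num
    rwa [e] at h
  intro x _
  rw [← Finset.univ_sum_single x]
  apply Submodule.sum_mem
  intro c _
  have : Pi.single c (x c) = (x c) • (Pi.single c (1 : ℝ) : Q → ℝ) := by
    funext p
    by_cases hp : p = c
    · subst hp; simp
    · simp [Pi.single_eq_of_ne hp]
  rw [this]
  exact Submodule.smul_mem _ _ (hbasis c)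

theorem pdim_order : pdim (orderPolytope Q) = Fintype.card Q := by
  unfold pdim
  rw [span_order, finrank_top, Module.finrank_fintype_fun_eq_card]

theorem pdim_proj (hiso : ∀ p : Q, ¬ (IsMin p ∧ IsMax p)) (a b : Q) (ha : IsMin a)
    (hb : IsMax b) : pdim (TR a b '' orderPolytope Q) + 2 = Fintype.card Q := by
  have hva : vz a = 0 := vz_nmax (fun h => hiso a ⟨ha, h⟩)
  have hvb : vz b = 1 := vz_max hb
  have h1 : vectorSpan ℝ (TR a b '' orderPolytope Q) = LinearMap.range (TR a b) := by
    have h := AffineMap.map_vectorSpan (TR a b).toAffineMap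
      (s := orderPolytope Q)
    rw [span_order] at h
    have e : (TR a b).toAffineMap.linear = TR a b := rfl
    rw [e, Submodule.map_top] at h
    exact h.symm
  unfold pdim
  rw [h1]
  have h2 := LinearMap.finrank_range_add_finrank_ker (TR a b)
  rw [Module.finrank_fintype_fun_eq_card] at h2
  have h3 : Module.finrank ℝ (LinearMap.ker (TR a b)) = 2 := by
    set w : Fin 2 → (Q → ℝ) := ![fun _ => 1, fun p => (vz p : ℝ)] with hw
    have hli : LinearIndependent ℝ w := by
      rw [LinearIndependent.pair_iff]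
      intro s t hst
      have e1 := congrFun hst a
      have e2 := congrFun hst b
      simp only [Pi.add_apply, Pi.smul_apply, smul_eq_mul, Pi.zero_apply, hva, hvb] at e1 e2
      push_cast at e1 e2
      constructor <;> linarith
    have hker : LinearMap.ker (TR a b) = Submodule.span ℝ (Set.range w) := by
      apply le_antisymm
      · intro x hx
        rw [LinearMap.mem_ker] at hx
        have : x = x a • w 0 + (x b - x a) • w 1 := by
          funext c
          have h := congrFun hx c
          rw [TR_apply] at h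
          simp only [Pi.zero_apply] at h
          simp only [hw, Matrix.cons_val_zero, Matrix.cons_val_one, Pi.add_apply, Pi.smul_apply,
            smul_eq_mul]
          linarith
        rw [this]
        exact Submodule.add_mem _ (Submodule.smul_mem _ _ (Submodule.subset_span ⟨0, rfl⟩))
          (Submodule.smul_mem _ _ (Submodule.subset_span ⟨1, rfl⟩))
      · rw [Submodule.span_le]
        rintro _ ⟨i, rfl⟩
        rw [SetLike.mem_coe, LinearMap.mem_ker]
        funext c
        rw [TR_apply]
        fin_cases i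
        · simp [hw]
        · simp [hw, hva, hvb]
    rw [hker, finrank_span_eq_card hli, Fintype.card_fin]
  omega

theorem IndSet_finite : (IndSet Q).Finite := (A_finite Q 1).subset (IndSet_sub Q)

theorem good_noiso (hiso : ∀ p : Q, ¬ (IsMin p ∧ IsMax p)) (hne : Nonempty Q) : Good Q := by
  obtain ⟨p⟩ := hne
  obtain ⟨a, -, ha⟩ := exists_min_le p
  obtain ⟨b, -, hb⟩ := exists_max_ge p
  have : Nonempty Q := ⟨p⟩
  refine ⟨Q, inferInstance, TZ a b '' IndSet Q, IndSet_finite.image _, ?_, ?_, ?_⟩
  · refine ⟨0, ⟨fun _ => Or.inl rfl, fun _ _ _ => le_refl _⟩, ?_⟩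
    funext c
    simp [TZ]
  · rw [hull_image]
    exact pdim_proj hiso a b ha hb
  · intro n
    rw [hull_image, ← B_count]
    rcases Nat.eq_zero_or_pos n with h | h
    · subst h
      rw [ehr_zero]
      · have := B_count Q 0
        rw [Om_zero, Om_neg _ _ (by norm_num), Om_neg _ _ (by norm_num)] at this
        push_cast at this ⊢
        linarith
      · refine ⟨TR a b 0, 0, ⟨fun p => by simp, fun _ _ _ => le_refl _⟩, rfl⟩
    · unfold ehr
      rw [lattice_proj hiso a b ha hb n h.ne', (TZ_inj hiso a b n).ncard_image]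

end Proj

/-! ### Adding an isolated point -/

section Iso

/-- Remove the point `p`. -/
abbrev Rem (Q : Type) (p : Q) : Type := {x : Q // x ≠ p}

theorem Om_iso {Q : Type} [Fintype Q] [PartialOrder Q] (p : Q) (h1 : IsMin p) (h2 : IsMax p)
    (k : ℤ) : (Om Q k : ℤ) = (k + 1).toNat * Om (Rem Q p) k := by
  classical
  set φ : (Q → ℤ) → (Rem Q p → ℤ) × ℤ := fun f => (fun x => f x.1, f p) with hφ
  have hinj : Function.Injective φ := by
    intro f g h
    funext x
    by_cases hx : x = p
    · rw [hx]; exact congrArg Prod.snd h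
    · exact congrFun (congrArg Prod.fst h) ⟨x, hx⟩
  have himg : φ '' A Q k = A (Rem Q p) k ×ˢ Set.Icc 0 k := by
    ext ⟨g, c⟩
    constructor
    · rintro ⟨f, hf, he⟩
      simp only [hφ, Prod.mk.injEq] at he
      obtain ⟨rfl, rfl⟩ := he
      exact ⟨⟨fun x => hf.1 x.1, fun x y hxy => hf.2 _ _ hxy⟩, hf.1 p⟩
    · rintro ⟨hg, hc⟩
      refine ⟨fun x => if h : x = p then c else g ⟨x, h⟩, ⟨fun x => ?_, fun x y hxy => ?_⟩, ?_⟩
      · beta_reduce
        by_cases h : x = p
        · rw [dif_pos h]; exact hc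
        · rw [dif_neg h]; exact hg.1 _
      · by_cases hx : x = p
        · subst hx
          have : x = y := le_antisymm hxy (h2 hxy)
          subst this
          exact le_refl _
        · by_cases hy : y = p
          · subst hy
            exact absurd (le_antisymm hxy (h1 hxy)) hx
          · beta_reduce
            rw [dif_neg hx, dif_neg hy]
            exact hg.2 _ _ hxy
      · simp only [hφ, Prod.mk.injEq]
        refine ⟨?_, by simp⟩
        funext x
        rw [dif_neg x.2]
  have hcard : (A Q k).ncard = (A (Rem Q p) k).ncard * (Set.Icc (0 : ℤ) k).ncard := by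
    rw [← Set.ncard_image_of_injective _ hinj, himg, Set.ncard_prod]
  have hI : (Set.Icc (0 : ℤ) k).ncard = (k + 1).toNat := by
    rw [Set.ncard_eq_toFinset_card', Set.toFinset_Icc, Int.card_Icc, sub_zero]
  unfold Om
  rw [hcard, hI]
  push_cast
  ring

variable {ι : Type} [Fintype ι]

/-- Real points of the new space. -/
def mk {R : Type} (x : ι → R) (h : R) : Option ι → R := fun o => o.elim h x

omit [Fintype ι] in
theorem mk_none {R : Type} (x : ι → R) (h : R) : mk x h none = h := rfl

omit [Fintype ι] in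
theorem mk_some {R : Type} (x : ι → R) (h : R) (i : ι) : mk x h (some i) = x i := rfl

omit [Fintype ι] in
theorem mk_toR (x : ι → ℤ) (h : ℤ) : toR (mk x h) = mk (toR x) (h : ℝ) := by
  funext o
  cases o <;> rfl

/-- The new vertex set. -/
def V2 (V : Set (ι → ℤ)) : Set (Option ι → ℤ) :=
  (fun v => mk v 0) '' V ∪ (fun v => mk v 1) '' V ∪ {mk 0 2, mk 0 (-1)}

/-- The width function. -/
noncomputable def lam (h : ℝ) : ℝ := min 1 (min (2 - h) (1 + h))

/-- The new polytope. -/
def RR (K : Set (ι → ℝ)) : Set (Option ι → ℝ) :=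
  {z | -1 ≤ z none ∧ z none ≤ 2 ∧ (fun i => z (some i)) ∈ lam (z none) • K}

omit [Fintype ι] in
theorem smul_mono {K : Set (ι → ℝ)} (hK : Convex ℝ K) (h0 : (0 : ι → ℝ) ∈ K) {a b : ℝ}
    (ha : 0 ≤ a) (hab : a ≤ b) : a • K ⊆ b • K := by
  rintro _ ⟨x, hx, rfl⟩
  rcases eq_or_lt_of_le (ha.trans hab) with hb | hb
  · have : a = 0 := by linarith
    subst this
    rw [← hb]
    exact ⟨x, hx, rfl⟩
  · refine ⟨(a / b) • x, ?_, ?_⟩
    · have h := hK hx h0 (div_nonneg ha hb.le) (sub_nonneg.mpr ((div_le_one hb).mpr hab))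
        (by ring)
      simpa using h
    · simp only [smul_smul]
      rw [mul_div_cancel₀ _ hb.ne']

theorem lam_nonneg {h : ℝ} (h1 : -1 ≤ h) (h2 : h ≤ 2) : 0 ≤ lam h := by
  unfold lam
  refine le_min (by norm_num) (le_min (by linarith) (by linarith))

theorem lam_concave {h h' a b : ℝ} (ha : 0 ≤ a) (hb : 0 ≤ b) (hab : a + b = 1) :
    a * lam h + b * lam h' ≤ lam (a * h + b * h') := by
  have e1 : lam h ≤ 1 := min_le_left _ _
  have e2 : lam h ≤ 2 - h := (min_le_right _ _).trans (min_le_left _ _)
  have e3 : lam h ≤ 1 + h := (min_le_right _ _).trans (min_le_right _ _)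
  have f1 : lam h' ≤ 1 := min_le_left _ _
  have f2 : lam h' ≤ 2 - h' := (min_le_right _ _).trans (min_le_left _ _)
  have f3 : lam h' ≤ 1 + h' := (min_le_right _ _).trans (min_le_right _ _)
  have hb' : b = 1 - a := by linarith
  refine le_min ?_ (le_min ?_ ?_)
  · nlinarith [mul_le_mul_of_nonneg_left e1 ha, mul_le_mul_of_nonneg_left f1 hb]
  · nlinarith [mul_le_mul_of_nonneg_left e2 ha, mul_le_mul_of_nonneg_left f2 hb]
  · nlinarith [mul_le_mul_of_nonneg_left e3 ha, mul_le_mul_of_nonneg_left f3 hb]

omit [Fintype ι] in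
theorem RR_convex {K : Set (ι → ℝ)} (hK : Convex ℝ K) (h0 : (0 : ι → ℝ) ∈ K) :
    Convex ℝ (RR K) := by
  rintro z ⟨h1, h2, ⟨x, hx, hxz⟩⟩ z' ⟨h1', h2', ⟨x', hx', hxz'⟩⟩ a b ha hb hab
  have hb' : b = 1 - a := by linarith
  refine ⟨?_, ?_, ?_⟩
  · simp only [Pi.add_apply, Pi.smul_apply, smul_eq_mul]
    nlinarith [mul_le_mul_of_nonneg_left h1 ha, mul_le_mul_of_nonneg_left h1' hb]
  · simp only [Pi.add_apply, Pi.smul_apply, smul_eq_mul]
    nlinarith [mul_le_mul_of_nonneg_left h2 ha, mul_le_mul_of_nonneg_left h2' hb]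
  · have hl := lam_nonneg h1 h2
    have hl' := lam_nonneg h1' h2'
    have hm : (fun i => (a • z + b • z') (some i)) ∈
        (a * lam (z none) + b * lam (z' none)) • K := by
      rw [hK.add_smul (mul_nonneg ha hl) (mul_nonneg hb hl')]
      refine ⟨(a * lam (z none)) • x, ⟨x, hx, rfl⟩, (b * lam (z' none)) • x', ⟨x', hx', rfl⟩, ?_⟩
      funext i
      have e1 := congrFun hxz i
      have e2 := congrFun hxz' i
      simp only [Pi.add_apply, Pi.smul_apply, smul_eq_mul] at e1 e2 ⊢
      rw [← e1, ← e2]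
      ring
    exact smul_mono hK h0 (add_nonneg (mul_nonneg ha hl) (mul_nonneg hb hl'))
      (lam_concave ha hb hab) hm

omit [Fintype ι] in
theorem hull_V2 (V : Set (ι → ℤ)) (h0 : (0 : ι → ℤ) ∈ V) :
    convexHull ℝ (toR '' V2 V) = RR (convexHull ℝ (toR '' V)) := by
  set K := convexHull ℝ (toR '' V) with hKdef
  have hK : Convex ℝ K := convex_convexHull ℝ _
  have hVK : ∀ v ∈ V, toR v ∈ K := fun v hv => subset_convexHull ℝ _ ⟨v, hv, rfl⟩
  have hz : toR (0 : ι → ℤ) = 0 := by funext i; simp [toR]
  have h0K : (0 : ι → ℝ) ∈ K := by rw [← hz]; exact hVK 0 h0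
  have l0 : lam 0 = 1 := by unfold lam; norm_num
  have l1 : lam 1 = 1 := by unfold lam; norm_num
  have l2 : lam 2 = 0 := by unfold lam; norm_num
  have l3 : lam (-1) = 0 := by unfold lam; norm_num
  apply Set.Subset.antisymm
  · apply convexHull_min _ (RR_convex hK h0K)
    rintro _ ⟨w, hw, rfl⟩
    rcases hw with (⟨v, hv, rfl⟩ | ⟨v, hv, rfl⟩) | hw
    · refine ⟨by simp [toR, mk_none], by simp [toR, mk_none], ?_⟩
      have : toR (mk v 0) none = 0 := by simp [toR, mk_none]
      rw [this, l0, one_smul]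
      exact hVK v hv
    · refine ⟨by simp [toR, mk_none], by simp [toR, mk_none], ?_⟩
      have : toR (mk v 1) none = 1 := by simp [toR, mk_none]
      rw [this, l1, one_smul]
      exact hVK v hv
    · simp only [Set.mem_insert_iff, Set.mem_singleton_iff] at hw
      rcases hw with rfl | rfl
      · refine ⟨by simp [toR, mk_none]; norm_num, by simp [toR, mk_none], ?_⟩
        have : toR (mk (0 : ι → ℤ) 2) none = 2 := by simp [toR, mk_none]
        rw [this, l2]
        refine ⟨0, h0K, ?_⟩
        funext i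
        simp [toR, mk_some]
      · refine ⟨by simp [toR, mk_none], by simp [toR, mk_none]; norm_num, ?_⟩
        have : toR (mk (0 : ι → ℤ) (-1)) none = -1 := by simp [toR, mk_none]
        rw [this, l3]
        refine ⟨0, h0K, ?_⟩
        funext i
        simp [toR, mk_some]
  · -- the hull contains the new polytope
    set H := convexHull ℝ (toR '' V2 V) with hH
    have hHc : Convex ℝ H := convex_convexHull ℝ _
    have base : ∀ (c : ℤ), (∀ v ∈ V, mk v c ∈ V2 V) → ∀ y ∈ K, mk y (c : ℝ) ∈ H := by
      intro c hc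
      have hsub : K ⊆ {y | mk y (c : ℝ) ∈ H} := by
        apply convexHull_min
        · rintro _ ⟨v, hv, rfl⟩
          show mk (toR v) (c : ℝ) ∈ H
          rw [← mk_toR]
          exact subset_convexHull ℝ _ ⟨_, hc v hv, rfl⟩
        · intro x hx y hy a b ha hb hab
          have := hHc hx hy ha hb hab
          have e : a • mk x (c : ℝ) + b • mk y (c : ℝ) = mk (a • x + b • y) (c : ℝ) := by
            funext o
            cases o with
            | none =>
              simp only [Pi.add_apply, Pi.smul_apply, smul_eq_mul, mk_none]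
              rw [← add_mul, hab, one_mul]
            | some i => simp [mk_some]
          rw [e] at this
          exact this
      exact fun y hy => hsub hy
    have b0 := base 0 (fun v hv => Or.inl (Or.inl ⟨v, hv, rfl⟩))
    have b1 := base 1 (fun v hv => Or.inl (Or.inr ⟨v, hv, rfl⟩))
    have t2 : mk (0 : ι → ℝ) (2 : ℝ) ∈ H := by
      have : mk (0 : ι → ℝ) (2 : ℝ) = toR (mk (0 : ι → ℤ) 2) := by
        rw [mk_toR, hz]; norm_num
      rw [this]
      exact subset_convexHull ℝ _ ⟨_, Or.inr (by simp), rfl⟩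
    have t3 : mk (0 : ι → ℝ) (-1 : ℝ) ∈ H := by
      have : mk (0 : ι → ℝ) (-1 : ℝ) = toR (mk (0 : ι → ℤ) (-1)) := by
        rw [mk_toR, hz]; norm_num
      rw [this]
      exact subset_convexHull ℝ _ ⟨_, Or.inr (by simp), rfl⟩
    push_cast at b0 b1
    rintro z ⟨h1, h2, ⟨y, hy, hyz⟩⟩
    have hsome : ∀ i, z (some i) = lam (z none) * y i := by
      intro i
      have := congrFun hyz i
      simp only [Pi.smul_apply, smul_eq_mul] at this
      exact this.symm
    rcases le_total (z none) 0 with hz0 | hz0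
    · -- lower pyramid
      have hl : lam (z none) = 1 + z none := by
        unfold lam
        rw [min_eq_right (a := 2 - z none) (by linarith), min_eq_right (by linarith)]
      have := hHc (b0 y hy) t3 (a := 1 + z none) (b := -z none) (by linarith) (by linarith)
        (by ring)
      convert this using 1
      funext o
      cases o with
      | none => simp [mk_none]
      | some i => simp [mk_some, hsome, hl]
    · rcases le_total (z none) 1 with hz1 | hz1
      · have hl : lam (z none) = 1 := by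
          unfold lam
          rw [min_eq_left]
          exact le_min (by linarith) (by linarith)
        have := hHc (b0 y hy) (b1 y hy) (a := 1 - z none) (b := z none) (by linarith) hz0
          (by ring)
        convert this using 1
        funext o
        cases o with
        | none => simp [mk_none]
        | some i =>
          simp only [Pi.add_apply, Pi.smul_apply, smul_eq_mul, mk_some, hsome, hl]
          ring
      · have hl : lam (z none) = 2 - z none := by
          unfold lam
          rw [min_eq_left (a := 2 - z none) (by linarith), min_eq_right (by linarith)]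
        have := hHc (b1 y hy) t2 (a := 2 - z none) (b := z none - 1) (by linarith) (by linarith)
          (by ring)
        convert this using 1
        funext o
        cases o with
        | none =>
          simp only [Pi.add_apply, Pi.smul_apply, smul_eq_mul, mk_none]
          ring
        | some i => simp [mk_some, hsome, hl]

/-- Lattice points of a dilate of a bounded set are finite. -/
theorem lat_finite (V : Set (ι → ℤ)) (hV : V.Finite) (n : ℕ) :
    {u : ι → ℤ | toR u ∈ (n : ℝ) • convexHull ℝ (toR '' V)}.Finite := by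
  classical
  obtain ⟨M, hM⟩ : ∃ M : ℕ, ∀ v ∈ V, ∀ i, |v i| ≤ M := by
    obtain ⟨M, hM⟩ := (hV.image (fun v => ∑ i, |v i|)).bddAbove
    refine ⟨M.toNat, fun v hv i => ?_⟩
    have h1 : ∑ i, |v i| ≤ M := hM ⟨v, hv, rfl⟩
    have h2 : |v i| ≤ ∑ i, |v i| :=
      Finset.single_le_sum (f := fun i => |v i|) (fun _ _ => abs_nonneg _) (Finset.mem_univ i)
    have h3 : M ≤ M.toNat := Int.self_le_toNat M
    linarith
  have hbox : convexHull ℝ (toR '' V) ⊆ {x | ∀ i, |x i| ≤ (M : ℝ)} := by
    apply convexHull_min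
    · rintro _ ⟨v, hv, rfl⟩ i
      have := hM v hv i
      simp only [toR]
      exact_mod_cast this
    · intro x hx y hy a b ha hb hab i
      calc |(a • x + b • y) i| ≤ |a * x i| + |b * y i| := by
            simp only [Pi.add_apply, Pi.smul_apply, smul_eq_mul]; exact abs_add_le _ _
        _ = a * |x i| + b * |y i| := by rw [abs_mul, abs_mul, abs_of_nonneg ha, abs_of_nonneg hb]
        _ ≤ a * M + b * M := by
            have := hx i; have := hy i; gcongr
        _ = M := by rw [← add_mul, hab, one_mul]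
  apply Set.Finite.subset (Set.finite_Icc (fun _ => -((n * M : ℕ) : ℤ)) (fun _ : ι => ((n * M : ℕ) : ℤ)))
  rintro u ⟨x, hx, hxu⟩
  have h1 : ∀ i, |(u i : ℝ)| ≤ n * M := by
    intro i
    have h2 : (u i : ℝ) = n * x i := by
      have := congrFun hxu i
      simp only [Pi.smul_apply, smul_eq_mul, toR] at this
      exact this.symm
    rw [h2, abs_mul, Nat.abs_cast]
    have := hbox hx i
    gcongr
  constructor
  · intro i
    have := (abs_le.mp (h1 i)).1
    have h3 : -((n * M : ℕ) : ℝ) ≤ u i := by push_cast; exact this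
    exact_mod_cast h3
  · intro i
    have := (abs_le.mp (h1 i)).2
    have h3 : (u i : ℝ) ≤ ((n * M : ℕ) : ℝ) := by push_cast; exact this
    exact_mod_cast h3

omit [Fintype ι] in
theorem RR_dilate (K : Set (ι → ℝ)) (n : ℕ) (hn : n ≠ 0) (w : Option ι → ℤ) :
    toR w ∈ (n : ℝ) • RR K ↔ ∃ i : ℕ, i ≤ 3 * n ∧ w none = (i : ℤ) - n ∧
      toR (fun j => w (some j)) ∈ ((min n (min (3 * n - i) i) : ℕ) : ℝ) • K := by
  have hpos : (0 : ℝ) < n := by exact_mod_cast Nat.pos_of_ne_zero hn
  have hlam : ∀ i : ℕ, i ≤ 3 * n → (n : ℝ) * lam ((n : ℝ)⁻¹ * ((i : ℝ) - n)) =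
      ((min n (min (3 * n - i) i) : ℕ) : ℝ) := by
    intro i hi
    unfold lam
    rw [Nat.cast_min, Nat.cast_min, Nat.cast_sub hi, mul_min_of_nonneg _ _ hpos.le,
      mul_min_of_nonneg _ _ hpos.le]
    congr 1
    · ring
    · congr 1
      · field_simp
        push_cast
        ring
      · field_simp
        ring
  rw [mem_smul_iff _ n hn]
  have hsome : ∀ l : ℝ, ((fun i => ((n : ℝ)⁻¹ • toR w) (some i)) ∈ l • K ↔
      toR (fun j => w (some j)) ∈ ((n : ℝ) * l) • K) := by
    intro l
    have e : toR (fun j => w (some j)) = (n : ℝ) • (fun i => ((n : ℝ)⁻¹ • toR w) (some i)) := by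
      funext j
      simp only [toR, Pi.smul_apply, smul_eq_mul]
      rw [mul_inv_cancel_left₀ hpos.ne']
    rw [e, ← smul_smul, Set.smul_mem_smul_set_iff₀ hpos.ne']
  constructor
  · rintro ⟨h1, h2, h3⟩
    simp only [Pi.smul_apply, smul_eq_mul, toR] at h1 h2
    have h1' : -(n : ℝ) ≤ w none := by
      have := mul_le_mul_of_nonneg_left h1 hpos.le
      rw [mul_inv_cancel_left₀ hpos.ne'] at this
      linarith
    have h2' : (w none : ℝ) ≤ 2 * n := by
      have := mul_le_mul_of_nonneg_left h2 hpos.le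
      rw [mul_inv_cancel_left₀ hpos.ne'] at this
      linarith
    have h1i : -(n : ℤ) ≤ w none := by exact_mod_cast h1'
    have h2i : w none ≤ 2 * n := by exact_mod_cast h2'
    obtain ⟨i, hi⟩ : ∃ i : ℕ, (i : ℤ) = w none + n := ⟨(w none + n).toNat, by omega⟩
    refine ⟨i, by omega, by omega, ?_⟩
    rw [← hlam i (by omega), ← hsome]
    have e : ((n : ℝ)⁻¹ • toR w) none = (n : ℝ)⁻¹ * ((i : ℝ) - n) := by
      simp only [Pi.smul_apply, smul_eq_mul, toR]
      have : (w none : ℝ) = (i : ℝ) - n := by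
        have h4 : w none = (i : ℤ) - n := by omega
        rw [h4]; push_cast; ring
      rw [this]
    rw [← e]
    exact h3
  · rintro ⟨i, hi, hw, h3⟩
    have e : ((n : ℝ)⁻¹ • toR w) none = (n : ℝ)⁻¹ * ((i : ℝ) - n) := by
      simp only [Pi.smul_apply, smul_eq_mul, toR]
      rw [hw]; push_cast; ring
    refine ⟨?_, ?_, ?_⟩
    · rw [e]
      have : (0 : ℝ) ≤ i := Nat.cast_nonneg i
      rw [le_inv_mul_iff₀ hpos]
      linarith
    · rw [e]
      have : (i : ℝ) ≤ 3 * n := by exact_mod_cast hi
      rw [inv_mul_le_iff₀ hpos]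
      linarith
    · rw [hsome, e, hlam i hi]
      exact h3

theorem ehr_V2 (V : Set (ι → ℤ)) (hV : V.Finite) (h0 : (0 : ι → ℤ) ∈ V) (n : ℕ) :
    ehr (convexHull ℝ (toR '' V2 V)) n =
      ∑ i ∈ Finset.range (3 * n + 1), ehr (convexHull ℝ (toR '' V)) (min n (min (3 * n - i) i)) := by
  classical
  set K := convexHull ℝ (toR '' V) with hK
  have hKne : K.Nonempty := ⟨_, subset_convexHull ℝ _ ⟨0, h0, rfl⟩⟩
  rcases Nat.eq_zero_or_pos n with hn | hn
  · subst hn
    rw [ehr_zero]
    · simp [ehr_zero K hKne]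
    · exact ⟨_, subset_convexHull ℝ _ ⟨mk 0 2, Or.inr (by simp), rfl⟩⟩
  have hn0 : n ≠ 0 := hn.ne'
  have hfin2 : (V2 V).Finite :=
    ((hV.image _).union (hV.image _)).union (by simp)
  have hS := lat_finite (V2 V) hfin2 n
  unfold ehr
  rw [Set.ncard_eq_toFinset_card _ hS]
  rw [Finset.card_eq_sum_card_fiberwise (f := fun w : Option ι → ℤ => (w none + n).toNat)
    (t := Finset.range (3 * n + 1))]
  · apply Finset.sum_congr rfl
    intro i hi
    rw [Finset.mem_range] at hi
    have hT := lat_finite V hV (min n (min (3 * n - i) i))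
    rw [Set.ncard_eq_toFinset_card _ hT]
    apply Finset.card_bij (fun w _ => fun j => w (some j))
    · intro w hw
      rw [Finset.mem_filter, Set.Finite.mem_toFinset, Set.mem_ofPred_eq, hull_V2 V h0,
        RR_dilate _ n hn0] at hw
      obtain ⟨⟨i', hi', hw', hmem⟩, hwi⟩ := hw
      have : i' = i := by omega
      subst this
      rw [Set.Finite.mem_toFinset]
      exact hmem
    · intro w hw w' hw' heq
      rw [Finset.mem_filter, Set.Finite.mem_toFinset, Set.mem_ofPred_eq, hull_V2 V h0,
        RR_dilate _ n hn0] at hw hw'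
      obtain ⟨⟨i1, h1, h2, -⟩, h3⟩ := hw
      obtain ⟨⟨i1', h1', h2', -⟩, h3'⟩ := hw'
      funext o
      cases o with
      | none => omega
      | some j => exact congrFun heq j
    · intro u hu
      rw [Set.Finite.mem_toFinset, Set.mem_ofPred_eq] at hu
      refine ⟨mk u ((i : ℤ) - n), ?_, rfl⟩
      rw [Finset.mem_filter, Set.Finite.mem_toFinset, Set.mem_ofPred_eq, hull_V2 V h0,
        RR_dilate _ n hn0]
      refine ⟨⟨i, by omega, rfl, hu⟩, ?_⟩
      rw [mk_none]; omega
  · intro w hw
    rw [Finset.mem_coe, Set.Finite.mem_toFinset, Set.mem_ofPred_eq, hull_V2 V h0,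
      RR_dilate _ n hn0] at hw
    obtain ⟨i, h1, h2, -⟩ := hw
    rw [Finset.mem_coe, Finset.mem_range]
    beta_reduce
    omega

theorem sum_shape (e : ℕ → ℤ) (n : ℕ) :
    ∑ i ∈ Finset.range (3 * n + 1), e (min n (min (3 * n - i) i)) =
      (n + 1) * e n + 2 * ∑ j ∈ Finset.range n, e j := by
  have h1 : Finset.range (3 * n + 1) = Finset.Ico 0 (3 * n + 1) := by
    rw [Finset.range_eq_Ico]
  rw [h1, ← Finset.sum_Ico_consecutive _ (Nat.zero_le n) (by omega : n ≤ 3 * n + 1),
    ← Finset.sum_Ico_consecutive _ (by omega : n ≤ 2 * n + 1) (by omega : 2 * n + 1 ≤ 3 * n + 1)]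
  have a1 : ∑ i ∈ Finset.Ico 0 n, e (min n (min (3 * n - i) i)) = ∑ j ∈ Finset.range n, e j := by
    rw [Finset.range_eq_Ico]
    apply Finset.sum_congr rfl
    intro i hi
    rw [Finset.mem_Ico] at hi
    congr 1
    omega
  have a2 : ∑ i ∈ Finset.Ico n (2 * n + 1), e (min n (min (3 * n - i) i)) = (n + 1) * e n := by
    rw [Finset.sum_congr rfl (g := fun _ => e n)]
    · rw [Finset.sum_const, Nat.card_Ico, nsmul_eq_mul]
      congr 1
      push_cast [Nat.cast_sub (by omega : n ≤ 2 * n + 1)]
      ring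
    · intro i hi
      rw [Finset.mem_Ico] at hi
      congr 1
      omega
  have a3 : ∑ i ∈ Finset.Ico (2 * n + 1) (3 * n + 1), e (min n (min (3 * n - i) i)) =
      ∑ j ∈ Finset.range n, e j := by
    apply Finset.sum_bij' (fun i _ => 3 * n - i) (fun j _ => 3 * n - j)
    · intro i hi; rw [Finset.mem_Ico] at hi; rw [Finset.mem_range]; omega
    · intro j hj; rw [Finset.mem_range] at hj; rw [Finset.mem_Ico]; omega
    · intro i hi; rw [Finset.mem_Ico] at hi; omega
    · intro j hj; rw [Finset.mem_range] at hj; omega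
    · intro i hi
      rw [Finset.mem_Ico] at hi
      congr 1
      omega
  rw [a1, a2, a3]
  ring

theorem telescope (O : ℤ → ℤ) (hO1 : O (-1) = 0) (hO2 : O (-2) = 0) (n : ℕ) :
    ∑ j ∈ Finset.range n, (O j - 2 * O ((j : ℤ) - 1) + O ((j : ℤ) - 2)) =
      O ((n : ℤ) - 1) - O ((n : ℤ) - 2) := by
  induction n with
  | zero => simp [hO1, hO2]
  | succ n ih =>
    rw [Finset.sum_range_succ, ih]
    push_cast
    have e1 : (n : ℤ) + 1 - 1 = n := by ring
    have e2 : (n : ℤ) + 1 - 2 = n - 1 := by ring
    rw [e1, e2]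
    ring

omit [Fintype ι] in
theorem K_sub_span {K : Set (ι → ℝ)} (h0 : (0 : ι → ℝ) ∈ K) {x : ι → ℝ} (hx : x ∈ K) :
    x ∈ vectorSpan ℝ K := by
  have := vsub_mem_vectorSpan ℝ hx h0
  simpa using this

omit [Fintype ι] in
theorem span_RR (K : Set (ι → ℝ)) (h0 : (0 : ι → ℝ) ∈ K) (z : Option ι → ℝ) :
    z ∈ vectorSpan ℝ (RR K) ↔ (fun i => z (some i)) ∈ vectorSpan ℝ K := by
  have l0 : lam 0 = 1 := by unfold lam; norm_num
  have l1 : lam 1 = 1 := by unfold lam; norm_num
  constructor
  · intro hz
    have hle : vectorSpan ℝ (RR K) ≤ (vectorSpan ℝ K).comap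
        (LinearMap.funLeft ℝ ℝ (some : ι → Option ι)) := by
      rw [vectorSpan, Submodule.span_le]
      rintro _ ⟨a, ⟨-, -, ⟨x, hx, hxa⟩⟩, b, ⟨-, -, ⟨y, hy, hyb⟩⟩, rfl⟩
      show (fun i => (a - b) (some i)) ∈ vectorSpan ℝ K
      have e : (fun i => (a - b) (some i)) = lam (a none) • x - lam (b none) • y := by
        funext i
        have e1 := congrFun hxa i
        have e2 := congrFun hyb i
        simp only [Pi.sub_apply]
        rw [← e1, ← e2]
      rw [e]
      exact Submodule.sub_mem _ (Submodule.smul_mem _ _ (K_sub_span h0 hx))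
        (Submodule.smul_mem _ _ (K_sub_span h0 hy))
    exact hle hz
  · intro hz
    have m00 : (mk 0 0 : Option ι → ℝ) ∈ RR K := by
      refine ⟨by simp [mk_none], by simp [mk_none], ?_⟩
      rw [mk_none, l0, one_smul]; exact h0
    have m01 : (mk 0 1 : Option ι → ℝ) ∈ RR K := by
      refine ⟨by simp only [mk_none]; norm_num, by simp only [mk_none]; norm_num, ?_⟩
      rw [mk_none, l1, one_smul]; exact h0
    have hn := vsub_mem_vectorSpan ℝ m01 m00
    set inc : (ι → ℝ) →ₗ[ℝ] (Option ι → ℝ) :=
      { toFun := fun x => mk x 0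
        map_add' := fun x y => by funext o; cases o <;> simp [mk_none, mk_some]
        map_smul' := fun r x => by funext o; cases o <;> simp [mk_none, mk_some] } with hinc
    have hle : vectorSpan ℝ K ≤ (vectorSpan ℝ (RR K)).comap inc := by
      rw [vectorSpan, Submodule.span_le]
      rintro _ ⟨x, hx, y, hy, rfl⟩
      show mk (x - y) 0 ∈ vectorSpan ℝ (RR K)
      have mx : (mk x 0 : Option ι → ℝ) ∈ RR K := by
        refine ⟨by simp [mk_none], by simp [mk_none], ?_⟩
        rw [mk_none, l0, one_smul]; exact hx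
      have my : (mk y 0 : Option ι → ℝ) ∈ RR K := by
        refine ⟨by simp [mk_none], by simp [mk_none], ?_⟩
        rw [mk_none, l0, one_smul]; exact hy
      have h := vsub_mem_vectorSpan ℝ mx my
      have e : (mk x 0 -ᵥ mk y 0 : Option ι → ℝ) = mk (x - y) 0 := by
        funext o
        cases o <;> simp [mk_none, mk_some]
      rwa [e] at h
    have h1 : mk (fun i => z (some i)) 0 ∈ vectorSpan ℝ (RR K) := hle hz
    have e : z = mk (fun i => z (some i)) 0 + (z none) • ((mk 0 1 : Option ι → ℝ) -ᵥ (mk 0 0 : Option ι → ℝ)) := by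
      funext o
      cases o <;> simp [mk_none, mk_some]
    rw [e]
    exact Submodule.add_mem _ h1 (Submodule.smul_mem _ _ hn)

theorem pdim_RR (K : Set (ι → ℝ)) (h0 : (0 : ι → ℝ) ∈ K) : pdim (RR K) = pdim K + 1 := by
  unfold pdim
  let e : (vectorSpan ℝ (RR K)) ≃ₗ[ℝ] (vectorSpan ℝ K) × ℝ :=
    { toFun := fun z => (⟨fun i => z.1 (some i), (span_RR K h0 z.1).mp z.2⟩, z.1 none)
      invFun := fun p => ⟨mk p.1.1 p.2, (span_RR K h0 _).mpr p.1.2⟩
      map_add' := fun x y => rfl
      map_smul' := fun r x => rfl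
      left_inv := fun z => by
        apply Subtype.ext
        funext o
        cases o <;> rfl
      right_inv := fun p => rfl }
  rw [LinearEquiv.finrank_eq e, Module.finrank_prod, Module.finrank_self]

end Iso

theorem good_step {Q : Type} [Fintype Q] [PartialOrder Q] (p : Q) (h1 : IsMin p) (h2 : IsMax p)
    [Fintype (Rem Q p)] (hne : Nonempty (Rem Q p)) (hG : Good (Rem Q p)) : Good Q := by
  classical
  obtain ⟨ι, hι, V, hV, h0, hdim, hcount⟩ := hG
  have hz : toR (0 : ι → ℤ) = 0 := by funext i; simp [toR]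
  have h0K : (0 : ι → ℝ) ∈ convexHull ℝ (toR '' V) := by
    rw [← hz]; exact subset_convexHull ℝ _ ⟨0, h0, rfl⟩
  refine ⟨Option ι, inferInstance, V2 V, ((hV.image _).union (hV.image _)).union (by simp), ?_,
    ?_, ?_⟩
  · left; left
    refine ⟨0, h0, ?_⟩
    funext o
    cases o <;> rfl
  · rw [hull_V2 V h0, pdim_RR _ h0K]
    have hc : Fintype.card (Rem Q p) = Fintype.card Q - 1 := by
      rw [Fintype.card_subtype_compl, Fintype.card_subtype_eq]
    have hpos : 0 < Fintype.card Q := Fintype.card_pos_iff.mpr ⟨p⟩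
    omega
  · intro n
    rw [ehr_V2 V hV h0 n]
    push_cast
    rw [sum_shape (fun n => (ehr (convexHull ℝ (toR '' V)) n : ℤ)) n]
    have hs : ∑ j ∈ Finset.range n, (ehr (convexHull ℝ (toR '' V)) j : ℤ) =
        (Om (Rem Q p) ((n : ℤ) - 1) : ℤ) - Om (Rem Q p) ((n : ℤ) - 2) := by
      rw [← telescope (fun k => (Om (Rem Q p) k : ℤ)) (by simp [Om_neg (Rem Q p) (-1)])
        (by simp [Om_neg (Rem Q p) (-2)]) n]
      exact Finset.sum_congr rfl (fun j _ => hcount j)
    rw [hs, hcount n, Om_iso p h1 h2, Om_iso p h1 h2, Om_iso p h1 h2]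
    have t1 : (((n : ℤ) + 1).toNat : ℤ) = n + 1 := by omega
    have t2 : (((n : ℤ) - 1 + 1).toNat : ℤ) = n := by omega
    rw [t1, t2]
    rcases Nat.eq_zero_or_pos n with hn | hn
    · subst hn
      rw [Om_neg (Rem Q p) (((0 : ℕ) : ℤ) - 1) (by norm_num),
        Om_neg (Rem Q p) (((0 : ℕ) : ℤ) - 2) (by norm_num)]
      push_cast
      ring
    · have t3 : (((n : ℤ) - 2 + 1).toNat : ℤ) = n - 1 := by omega
      rw [t3]
      ring

theorem good_all : ∀ (d : ℕ) (Q : Type) [Fintype Q] [PartialOrder Q], Fintype.card Q = d →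
    (∃ a b : Q, a < b) → Good Q := by
  intro d
  induction d using Nat.strong_induction_on with
  | _ d ih =>
    intro Q _ _ hd hab
    classical
    by_cases hiso : ∀ p : Q, ¬ (IsMin p ∧ IsMax p)
    · obtain ⟨a, -, -⟩ := hab
      exact good_noiso hiso ⟨a⟩
    · push Not at hiso
      obtain ⟨p, h1, h2⟩ := hiso
      obtain ⟨a, b, hlt⟩ := hab
      have ha : a ≠ p := by
        rintro rfl
        exact (h2.not_lt hlt).elim
      have hb : b ≠ p := by
        rintro rfl
        exact (h1.not_lt hlt).elim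
      have hc : Fintype.card (Rem Q p) < d := by
        rw [← hd]
        exact Fintype.card_subtype_lt (x := p) (by simp)
      exact good_step p h1 h2 ⟨⟨a, ha⟩⟩ (ih _ hc (Rem Q p) rfl ⟨⟨a, ha⟩, ⟨b, hb⟩, hlt⟩)

/-- Transport along a bijection of coordinates. -/
theorem transport {ι κ : Type} (e : ι ≃ κ) (V : Set (ι → ℤ)) :
    (∀ n, ehr (convexHull ℝ (toR '' ((fun v : ι → ℤ => v ∘ e.symm) '' V))) n =
      ehr (convexHull ℝ (toR '' V)) n) ∧
    pdim (convexHull ℝ (toR '' ((fun v : ι → ℤ => v ∘ e.symm) '' V))) =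
      pdim (convexHull ℝ (toR '' V)) := by
  set L : (ι → ℝ) ≃ₗ[ℝ] (κ → ℝ) := LinearEquiv.funCongrLeft ℝ ℝ e.symm with hL
  have hLa : ∀ x : ι → ℝ, L x = x ∘ e.symm := fun x => rfl
  have himg : convexHull ℝ (toR '' ((fun v : ι → ℤ => v ∘ e.symm) '' V)) =
      (L : (ι → ℝ) →ₗ[ℝ] (κ → ℝ)) '' convexHull ℝ (toR '' V) := by
    rw [LinearMap.image_convexHull]
    congr 1
    rw [Set.image_image, Set.image_image]
    rfl
  constructor
  · intro n
    rw [himg]
    unfold ehr
    have : {u : κ → ℤ | toR u ∈ (n : ℝ) • ((L : (ι → ℝ) →ₗ[ℝ] (κ → ℝ)) ''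
        convexHull ℝ (toR '' V))} = (fun v : ι → ℤ => v ∘ e.symm) ''
        {u : ι → ℤ | toR u ∈ (n : ℝ) • convexHull ℝ (toR '' V)} := by
      ext u
      constructor
      · rintro ⟨_, ⟨x, hx, rfl⟩, hu⟩
        refine ⟨u ∘ e, ⟨x, hx, ?_⟩, ?_⟩
        · funext i
          have := congrFun hu (e i)
          simpa [hLa, toR] using this
        · funext k; simp
      · rintro ⟨v, ⟨x, hx, hv⟩, rfl⟩
        refine ⟨L x, ⟨x, hx, rfl⟩, ?_⟩
        funext k
        have := congrFun hv (e.symm k)
        simpa [hLa, toR] using this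
    rw [this, Set.ncard_image_of_injective]
    intro v w hvw
    funext i
    have := congrFun hvw (e i)
    simpa using this
  · rw [himg]
    unfold pdim
    have h := AffineMap.map_vectorSpan (L : (ι → ℝ) →ₗ[ℝ] (κ → ℝ)).toAffineMap
      (s := convexHull ℝ (toR '' V))
    have e1 : (L : (ι → ℝ) →ₗ[ℝ] (κ → ℝ)).toAffineMap.linear = (L : (ι → ℝ) →ₗ[ℝ] (κ → ℝ)) := rfl
    rw [e1] at h
    have h2 : vectorSpan ℝ ((L : (ι → ℝ) →ₗ[ℝ] (κ → ℝ)) '' convexHull ℝ (toR '' V)) =
      (vectorSpan ℝ (convexHull ℝ (toR '' V))).map (L : (ι → ℝ) →ₗ[ℝ] (κ → ℝ)) := h.symm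
    rw [h2]
    exact LinearEquiv.finrank_map_eq L _

open PowerSeries in
theorem series_eq (a b : ℕ → ℤ) (ha : a 0 = b 0) (h1 : a 1 = b 1 - 2 * b 0)
    (h2 : ∀ n, a (n + 2) = b (n + 2) - 2 * b (n + 1) + b n) :
    (PowerSeries.mk a : PowerSeries ℤ) = (1 - X) ^ 2 * PowerSeries.mk b := by
  have e : (1 - X : PowerSeries ℤ) ^ 2 * PowerSeries.mk b =
      PowerSeries.mk b - 2 * (PowerSeries.mk b * X) + (PowerSeries.mk b * X) * X := by ring
  rw [e]
  ext n
  have two : ∀ (f : PowerSeries ℤ) (n : ℕ), coeff n (2 * f) = 2 * coeff n f := by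
    intro f n
    have : (2 : PowerSeries ℤ) * f = f + f := by ring
    rw [this, map_add]; ring
  rw [map_add, map_sub, two]
  rcases n with _ | _ | n
  · simp [ha]
  · rw [coeff_succ_mul_X, coeff_succ_mul_X]
    simp [h1]
  · rw [coeff_succ_mul_X, coeff_succ_mul_X, coeff_succ_mul_X]
    simp [h2]

/-- For every finite poset `Q` whose order polytope is not the unit cube there is a lattice
polytope `P` in some `ℝ^m` with `dim P = |Q| - 2` and the same `h^*`-polynomial as the order
polytope of `Q`. -/
theorem result : ∀ (Q : Type) [Fintype Q] [PartialOrder Q], orderPolytope Q ≠ cube Q →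
    ∃ (m : ℕ) (V : Finset (Fin m → ℤ)), V.Nonempty ∧
      pdim (convexHull ℝ (toR '' (V : Set (Fin m → ℤ)))) + 2 = Fintype.card Q ∧
      hstar (convexHull ℝ (toR '' (V : Set (Fin m → ℤ)))) = hstar (orderPolytope Q) := by
  intro Q _ _ hne
  have hab : ∃ a b : Q, a < b := by
    by_contra hc
    push Not at hc
    apply hne
    ext x
    constructor
    · intro h; exact h.1
    · intro h
      refine ⟨h, fun p q hpq => ?_⟩
      rcases eq_or_lt_of_le hpq with h | h
      · rw [h]
      · exact absurd h (hc p q)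
  have hQne : Nonempty Q := by
    obtain ⟨a, -, -⟩ := hab
    exact ⟨a⟩
  obtain ⟨ι, hι, V, hV, h0, hdim, hcount⟩ := good_all _ Q rfl hab
  classical
  set e := Fintype.equivFin ι with he
  obtain ⟨t1, t2⟩ := transport e V
  have hfin : ((fun v : ι → ℤ => v ∘ e.symm) '' V).Finite := hV.image _
  refine ⟨Fintype.card ι, hfin.toFinset, ?_, ?_, ?_⟩
  · rw [Set.Finite.toFinset_nonempty]
    exact ⟨_, 0, h0, rfl⟩
  · rw [Set.Finite.coe_toFinset, t2]
    exact hdim
  · rw [Set.Finite.coe_toFinset]
    unfold hstar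
    rw [t2, pdim_order]
    have hE : ehrSeries (convexHull ℝ (toR '' ((fun v : ι → ℤ => v ∘ e.symm) '' V))) =
        (1 - PowerSeries.X) ^ 2 * ehrSeries (orderPolytope Q) := by
      unfold ehrSeries
      apply series_eq
      · simp
      · simp only [one_ne_zero, if_false, if_true]
        rw [t1, hcount, ehr_order Q 1 one_ne_zero]
        push_cast
        rw [Om_zero, Om_neg Q (-1) (by norm_num)]
        push_cast
        ring
      · intro n
        have n2 : n + 2 ≠ 0 := by omega
        have n1 : n + 1 ≠ 0 := by omega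
        simp only [n2, n1, if_false]
        rw [t1, hcount, ehr_order Q _ n2, ehr_order Q _ n1]
        have e1 : ((n + 2 : ℕ) : ℤ) - 1 = ((n + 1 : ℕ) : ℤ) := by push_cast; ring
        have e2 : ((n + 2 : ℕ) : ℤ) - 2 = (n : ℤ) := by push_cast; ring
        rw [e1, e2]
        by_cases hn : n = 0
        · subst hn
          simp [Om_zero]
        · rw [if_neg hn, ehr_order Q _ hn]
    rw [hE, ← mul_assoc, ← pow_add]
    congr 2
    omega

end Pool.Agent.Results.MP_d88d3c_co.TwoFewer
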